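import Mathlib
import Pool.Agent.Lib_helper60.DD.Final

/-!
# Distinct distances from one point when no four points are concyclic: `f(n) > (1/3 + c) n`
-/

set_option autoImplicit false

namespace Pool.Agent.Results.MP_a2cbb7_co.DistinctDistances

open Classical in
/-- `D_A(x)`: the number of distinct Euclidean distances from `x` to the other points of `A`. -/
noncomputable def distances (A : Finset (EuclideanSpace ℝ (Fin 2)))
    (x : EuclideanSpace ℝ (Fin 2)) : ℕ :=
  ((A.filter (fun y => y ≠ x)).image (fun y => dist x y)).card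

/-- No four different points of `A` lie on a common circle (centre `z`, radius `r > 0`);
collinear points are allowed. -/
def NoFourOnCircle (A : Finset (EuclideanSpace ℝ (Fin 2))) : Prop :=
  ∀ (z : EuclideanSpace ℝ (Fin 2)) (r : ℝ), 0 < r → ∀ B : Finset (EuclideanSpace ℝ (Fin 2)),
    B ⊆ A → B.card = 4 → ¬ ∀ p ∈ B, dist p z = r

/-- `f(n) = min_A max_{x ∈ A} D_A(x)`, over the `n`-point sets `A` in the plane with no four
points on a circle. -/
noncomputable def f (n : ℕ) : ℕ :=
  sInf {k : ℕ | ∃ A : Finset (EuclideanSpace ℝ (Fin 2)), A.card = n ∧ NoFourOnCircle A ∧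
    k = A.sup (distances A)}

/-- there are such sets: points on a line -/
private theorem exists_set (n : ℕ) : ∃ A : Finset (EuclideanSpace ℝ (Fin 2)), A.card = n ∧
    NoFourOnCircle A := by
  classical
  let g : ℕ → EuclideanSpace ℝ (Fin 2) := fun i => !₂[(i : ℝ), 0]
  have hg : Function.Injective g := by
    intro i j hij
    have h : (g i) 0 = (g j) 0 := by rw [hij]
    simpa [g] using h
  refine ⟨(Finset.range n).image g, ?_, ?_⟩
  · rw [Finset.card_image_of_injective _ hg, Finset.card_range]
  · intro z r hr B hB hB4 hall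
    -- three different points of `B`
    obtain ⟨p, hp, q, hq, s, hs, hpq, hps, hqs⟩ : ∃ p ∈ B, ∃ q ∈ B, ∃ s ∈ B,
        p ≠ q ∧ p ≠ s ∧ q ≠ s := by
      obtain ⟨p, hp, q, hq, s, hs, h1, h2, h3⟩ := Finset.two_lt_card.1 (by omega : 2 < B.card)
      exact ⟨p, hp, q, hq, s, hs, h1, h2, h3⟩
    have hline : ∀ p ∈ B, ∃ t : ℝ, p = !₂[t, 0] := by
      intro p hp
      obtain ⟨i, _, rfl⟩ := Finset.mem_image.1 (hB hp)
      exact ⟨i, rfl⟩
    obtain ⟨a, rfl⟩ := hline p hp
    obtain ⟨b, rfl⟩ := hline q hq
    obtain ⟨c, rfl⟩ := hline s hs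
    have hd : ∀ t : ℝ, dist (!₂[t, 0] : EuclideanSpace ℝ (Fin 2)) z = r →
        (t - z 0) ^ 2 + z 1 ^ 2 = r ^ 2 := by
      intro t ht
      rw [EuclideanSpace.dist_eq] at ht
      have h2 := congrArg (fun y : ℝ => y ^ 2) ht
      simp only at h2
      rw [Real.sq_sqrt (by positivity)] at h2
      simp only [Fin.sum_univ_two, Real.dist_eq, sq_abs] at h2
      simpa using h2
    have ha := hd a (hall _ hp)
    have hb := hd b (hall _ hq)
    have hc := hd c (hall _ hs)
    have hab : a ≠ b := fun h => hpq (by rw [h])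
    have hac : a ≠ c := fun h => hps (by rw [h])
    have hbc : b ≠ c := fun h => hqs (by rw [h])
    have e1 : (a - b) * (a + b - 2 * z 0) = 0 := by linear_combination ha - hb
    have e2 : (a - c) * (a + c - 2 * z 0) = 0 := by linear_combination ha - hc
    have e3 := (mul_eq_zero.1 e1).resolve_left (sub_ne_zero.2 hab)
    have e4 := (mul_eq_zero.1 e2).resolve_left (sub_ne_zero.2 hac)
    exact hbc (by linarith)

/-- **Q1, yes**: there are `c > 0` and `N` with `f(n) > (1/3 + c) n` for all `n ≥ N`. -/
theorem result : ∃ c : ℝ, 0 < c ∧ ∃ N : ℕ, ∀ n : ℕ, N ≤ n → (1 / 3 + c) * (n : ℝ) < (f n : ℝ) := by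
  obtain ⟨c, hc, N, h⟩ := Pool.Agent.DD.H60.final
  refine ⟨c, hc, N, fun n hn => ?_⟩
  classical
  have hne : {k : ℕ | ∃ A : Finset (EuclideanSpace ℝ (Fin 2)), A.card = n ∧ NoFourOnCircle A ∧
      k = A.sup (distances A)}.Nonempty := by
    obtain ⟨A, h1, h2⟩ := exists_set n
    exact ⟨_, A, h1, h2, rfl⟩
  obtain ⟨A, hA, hNC, hk⟩ := Nat.sInf_mem hne
  have hf : f n = A.sup (distances A) := hk
  have hcirc : ∀ z : EuclideanSpace ℝ (Fin 2), ∀ r : ℝ,
      (A.filter (fun p => dist p z = r)).card ≤ 3 := by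
    intro z r
    by_contra hcon
    have h4 : 4 ≤ (A.filter (fun p => dist p z = r)).card := by omega
    obtain ⟨B, hB, hB4⟩ := Finset.exists_subset_card_eq h4
    have hall : ∀ p ∈ B, dist p z = r := fun p hp => (Finset.mem_filter.1 (hB hp)).2
    have hr : 0 < r := by
      obtain ⟨p, q, hp, hq, hpq⟩ := Finset.one_lt_card_iff.1 (by omega : 1 < B.card)
      rcases lt_or_ge 0 r with h | h
      · exact h
      · exfalso
        have h1 : dist p z = 0 := le_antisymm ((hall p hp).le.trans h) dist_nonneg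
        have h2 : dist q z = 0 := le_antisymm ((hall q hq).le.trans h) dist_nonneg
        rw [dist_eq_zero] at h1 h2
        exact hpq (h1.trans h2.symm)
    exact hNC z r hr B (hB.trans (Finset.filter_subset _ _)) hB4 hall
  obtain ⟨x, hx, hlt⟩ := h n hn A hA (by convert hcirc)
  rw [hf]
  refine lt_of_lt_of_le hlt ?_
  have h1 : distances A x ≤ A.sup (distances A) := Finset.le_sup hx
  have h2 : ((A.erase x).image (fun y => dist x y)).card = distances A x := by
    unfold distances
    congr 2
    ext y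
    simp only [Finset.mem_erase, Finset.mem_filter]
    tauto
  calc (((A.erase x).image (fun y => dist x y)).card : ℝ) = (distances A x : ℝ) := by
        rw [← h2]
    _ ≤ _ := by exact_mod_cast h1

end Pool.Agent.Results.MP_a2cbb7_co.DistinctDistances
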